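import Pool.Agent.H633.CY.Fin3
import Pool.Agent.H633.CY.Ext
import Pool.Agent.H633.CY.Alg
import Pool.Agent.H633.CY.Alg1
import Pool.Agent.H633.CY.One
import Pool.Agent.H633.CY.Good2
import Pool.Agent.H633.CY.P_IDEM
import Pool.Agent.H633.CY.P_AVG
import Pool.Agent.H633.CY.P_FROB
import Pool.Agent.H633.CY.P_DEC
import Pool.Agent.H633.CY.P_DIM
import Pool.Agent.H633.CY.P_ELL
import Pool.Agent.H633.CY.P_TUR
import Pool.Agent.H633.CY.P_COL
import Pool.Agent.H633.CY.P_BTS
import Pool.Agent.H633.CY.P_LEG
import Pool.Agent.H633.CY.P_MER1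
import Pool.Agent.H633.CY.P_DYA1

set_option autoImplicit false

/-!
# The lengths of good cyclic codes have density zero (MP_bd7042_lc)

A prime factor `p` of `n` is *good* if `p ^ 2` does not divide `n` and `(p - 1) / 2` is prime to
`φ (n / p)`.

* In every family of cyclic codes (or of codes invariant under the translations of an abelian group)
  over a fixed finite field, with rates and relative distances bounded below, the number of good
  prime factors of the lengths is bounded.
* Almost all numbers have many good prime factors: the numbers below `N` with at most `B` of them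
  are `O (N / (log log N) ^ (1 / 5))` in number.
* Quantitatively, outside a set of exceptional lengths which is the same for all finite fields and
  has density zero, already a code of dimension `n * exp (-(log n) ^ θ)` contains a nonzero word of
  weight at most `n * exp (-(c / (q ^ 2 + 1)) * (log log n / log log log n))`.

So every sequence of cyclic codes showing that the cyclic codes over a finite field are good has
almost all its lengths in a set of density zero.
-/

namespace Pool.Agent.Results.MP_bd7042_lc.GoodLengthsDensityZero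

open Finset Filter Topology

/-- The good prime factors of `n`: those `p` with `p ^ 2 ∤ n` and `(p - 1) / 2` prime to
`φ (n / p)`. -/
def goodPrimes (n : ℕ) : Finset ℕ :=
  n.primeFactors.filter (fun p : ℕ => ¬ p ^ 2 ∣ n ∧ ((p - 1) / 2).Coprime (n / p).totient)

/-- The exceptional numbers: fewer than `c log log n / log log log n` good prime factors
are larger than `log log n * exp ((log n) ^ θ)`. -/
def Exceptional (θ c : ℝ) : Set ℕ :=
  {n | ((((goodPrimes n).filter (fun p : ℕ =>
      Real.log (Real.log n) * Real.exp (Real.log n ^ θ) < p)).card : ℕ) : ℝ) <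
    c * (Real.log (Real.log n) / Real.log (Real.log (Real.log n)))}

open Classical in
/-- For all large `N`, at most `K * N / (log log N) ^ (1 / 5)` elements of `A` are below `N`. -/
def Sparse (K : ℝ) (A : Set ℕ) : Prop :=
  ∃ N0 : ℕ, ∀ N : ℕ, N0 ≤ N → (((range N).filter (fun n => n ∈ A)).card : ℝ) ≤
    K * (N / Real.log (Real.log N) ^ (1 / 5 : ℝ))

/-- A linear code with coordinates in the abelian group `G`, invariant under the translations. -/
def Invariant {F G : Type} [Field F] [AddCommGroup G] (C : Submodule F (G → F)) : Prop :=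
  ∀ g : G, ∀ w ∈ C, (fun x => w (x + g)) ∈ C

/-- The cyclic codes `C i` of lengths `n i → ∞` and minimum distances `d i` have rates tending to
`R > 0` and relative minimum distances tending to `δ > 0`, as in the question. -/
def GoodSequence {F : Type} [Field F] [DecidableEq F] (n : ℕ → ℕ)
    (C : ∀ i, Submodule F (Fin (n i) → F)) (d : ℕ → ℕ) (R δ : ℝ) : Prop :=
  (∀ i, ∀ c ∈ C i, (fun j => c (finRotate (n i) j)) ∈ C i) ∧
  (∀ i, (∃ c ∈ C i, c ≠ 0 ∧ hammingNorm c = d i) ∧ ∀ c ∈ C i, c ≠ 0 → d i ≤ hammingNorm c) ∧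
  Tendsto n atTop atTop ∧ 0 < R ∧ 0 < δ ∧
  Tendsto (fun i => (Module.finrank F (C i) : ℝ) / (n i : ℝ)) atTop (𝓝 R) ∧
  Tendsto (fun i => (d i : ℝ) / (n i : ℝ)) atTop (𝓝 δ)

/-- `n * exp (-(c / (q ^ 2 + 1)) * (log log n / log log log n))`, a bound for weights. -/
noncomputable def weightBound (c : ℝ) (q n : ℕ) : ℝ :=
  n * Real.exp (-(c / (q ^ 2 + 1) *
    (Real.log (Real.log n) / Real.log (Real.log (Real.log n)))))

lemma goodPrimes_eq (n : ℕ) : goodPrimes n = Pool.Agent.H633.CY.goodPrimes n := rfl

lemma exceptional_eq (θ c : ℝ) : Exceptional θ c = Pool.Agent.H633.CY.Exc θ c := by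
  unfold Exceptional Pool.Agent.H633.CY.Exc Pool.Agent.H633.CY.bigGood goodPrimes
  ext n
  rw [Set.mem_ofPred_eq, Set.mem_ofPred_eq, filter_filter]
  simp only [and_assoc]

open Pool.Agent.H633.CY in
lemma alg2 : S_ALG2 :=
  t_alg2 (t_alg (t_alg1 (t_one IDEM.t_idem AVG.t_avg) FROB.t_frob DEC.t_dec) DIM.t_dim ELL.t_ell)
    t_goodk

open Pool.Agent.H633.CY in
lemma low3 : S_LOW3 := t_low3 (t_dya1 LEG.t_leg MER1.t_mer)

/-- **The lengths of good cyclic codes have density zero.** -/
theorem result :
    -- (1) good families of abelian codes: boundedly many good prime factors of the lengths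
    (∀ (F : Type) [Field F] [Fintype F] [DecidableEq F] (R δ : ℝ), 0 < R → 0 < δ →
      ∃ B : ℕ, ∀ (G : Type) [AddCommGroup G] [Fintype G] (C : Submodule F (G → F)), Invariant C →
        R * Fintype.card G ≤ Module.finrank F C →
        (∀ w ∈ C, w ≠ 0 → δ * Fintype.card G ≤ hammingNorm w) →
        (goodPrimes (Fintype.card G)).card ≤ B) ∧
    -- (2) almost all numbers have many good prime factors
    (∃ K : ℝ, ∀ B : ℕ, Sparse K {n | (goodPrimes n).card ≤ B}) ∧
    -- (3) quantitative form, with an exceptional set not depending on the field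
    (∀ θ : ℝ, 1 / 2 ≤ θ → θ < 1 → ∃ c K : ℝ, 0 < c ∧ Sparse K (Exceptional θ c) ∧
      ∀ (F : Type) [Field F] [Fintype F] [DecidableEq F], ∃ n0 : ℕ, ∀ n : ℕ, n0 ≤ n →
        n ∉ Exceptional θ c → ∀ (G : Type) [AddCommGroup G] [Fintype G], Fintype.card G = n →
        ∀ C : Submodule F (G → F), Invariant C →
        (n : ℝ) * Real.exp (-(Real.log n ^ θ)) ≤ Module.finrank F C →
        ∃ w ∈ C, w ≠ 0 ∧ (hammingNorm w : ℝ) ≤ weightBound c (Fintype.card F) n) ∧
    -- (4) the sequences of the question
    (∀ (F : Type) [Field F] [Fintype F] [DecidableEq F] (n : ℕ → ℕ)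
      (C : ∀ i, Submodule F (Fin (n i) → F)) (d : ℕ → ℕ) (R δ : ℝ), GoodSequence n C d R δ →
        (∃ B : ℕ, ∀ i, (goodPrimes (n i)).card ≤ B) ∧
          ∀ θ c : ℝ, 0 < c → ∀ᶠ i in atTop, n i ∈ Exceptional θ c) := by
  have hdens := fun θ h1 h2 => Pool.Agent.H633.CY.dens3 low3 Pool.Agent.H633.CY.TUR.t_tur
    (Pool.Agent.H633.CY.COL.t_col Pool.Agent.H633.CY.BTS.t_bts) Pool.Agent.H633.CY.t_good2 θ h1 h2
  simp only [exceptional_eq, goodPrimes_eq]
  refine ⟨?_, ?_, ?_, ?_⟩
  · intro F _ _ _ R δ hR hδ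
    exact Pool.Agent.H633.CY.bounded alg2 F R δ hR hδ
  · obtain ⟨c, K, hc, N0, h⟩ := hdens (1 / 2) le_rfl (by norm_num)
    exact ⟨K + 1, fun B => Pool.Agent.H633.CY.count_bounded c K hc N0 h B _ (fun n hn => hn)⟩
  · intro θ h1 h2
    obtain ⟨c, K, hc, N0, h⟩ := hdens θ h1 h2
    refine ⟨c, K, hc, ⟨N0, h⟩, ?_⟩
    intro F _ _ _
    exact Pool.Agent.H633.CY.codes3 alg2 θ c hc F
  · intro F _ _ _ n C d R δ hs
    obtain ⟨hC, hd, hn, hR, hδ, hRt, hδt⟩ := hs
    exact Pool.Agent.H633.CY.good_seq alg2 F n C d R δ hC hd hn hR hδ hRt hδt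

end Pool.Agent.Results.MP_bd7042_lc.GoodLengthsDensityZero
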